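import Pool.Agent.V5helper14.Sep.Stm

/-!
# Project SE, job OMIT
-/

set_option autoImplicit false

namespace Pool.Agent.V5helper66.SE

open Matrix Filter Pool.Agent.V5helper14.Hel Pool.Agent.V5helper14.Sep

theorem hdet_neg {k : ℕ} {ι : Type*} (X : ι → Fin (k + 1) → ℝ) (r : Fin (k + 2) → ℝ)
    (f : Fin (k + 1) → ι) : hdet X (-r) f = - hdet X r f := by
  unfold hdet
  have h1 : (Matrix.of (Fin.snoc (α := fun _ => Fin (k + 2) → ℝ) (fun i => row (X (f i))) (-r))) =
      (Matrix.of (Fin.snoc (α := fun _ => Fin (k + 2) → ℝ) (fun i => row (X (f i))) r)).updateRow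
        (Fin.last _) ((-1 : ℝ) • r) := by
    ext i j
    refine Fin.lastCases ?_ (fun i => ?_) i
    · simp
    · rw [Matrix.updateRow_ne (Fin.castSucc_lt_last i).ne]
      simp
  have h2 : (Matrix.of (Fin.snoc (α := fun _ => Fin (k + 2) → ℝ) (fun i => row (X (f i))) r)) =
      (Matrix.of (Fin.snoc (α := fun _ => Fin (k + 2) → ℝ) (fun i => row (X (f i))) r)).updateRow
        (Fin.last _) r := by
    ext i j
    refine Fin.lastCases ?_ (fun i => ?_) i
    · simp
    · rw [Matrix.updateRow_ne (Fin.castSucc_lt_last i).ne]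
  rw [h1, Matrix.det_updateRow_smul, ← h2]
  ring

/-- a relation of the four points gives a relation of the rows but one -/
theorem sum_skip {n m : ℕ} (i₀ : Fin (n + 1)) (c : Fin (n + 1) → ℝ) (Y : Fin (n + 1) → Fin m → ℝ)
    (h : ∑ i, c i • Y i = 0) (h0 : c i₀ = 0) :
    ∑ l, c (i₀.succAbove l) • Y (i₀.succAbove l) = 0 := by
  rw [Fin.sum_univ_succAbove _ i₀, h0] at h
  simpa using h

/-- extension of a coefficient vector by zero at two places -/
theorem ext_zero {n m : ℕ} (i₀ : Fin (n + 2)) (j : Fin (n + 1)) (Y : Fin (n + 2) → Fin m → ℝ)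
    (hI : ∀ β : Fin (n + 2) → ℝ, (∃ i j, i ≠ j ∧ β i = 0 ∧ β j = 0) → ∑ i, β i • Y i = 0 → β = 0)
    (b : Fin n → ℝ) (hb : ∑ l, b l • Y (i₀.succAbove (j.succAbove l)) = 0) : b = 0 := by
  set β : Fin (n + 2) → ℝ := Fin.insertNth (α := fun _ => ℝ) i₀ 0
    (Fin.insertNth (α := fun _ => ℝ) j 0 b) with hβ
  have h1 : β i₀ = 0 := by simp [hβ]
  have h2 : β (i₀.succAbove j) = 0 := by simp [hβ]
  have h3 : ∀ l, β (i₀.succAbove (j.succAbove l)) = b l := by intro l; simp [hβ]
  have h4 : ∑ i, β i • Y i = 0 := by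
    rw [Fin.sum_univ_succAbove _ i₀, Fin.sum_univ_succAbove _ j, h1, h2]
    simp only [zero_smul, zero_add, h3]
    exact hb
  have h5 := hI β ⟨i₀, i₀.succAbove j, (Fin.succAbove_ne i₀ j).symm, h1, h2⟩ h4
  funext l
  rw [← h3 l, h5]
  rfl

theorem sign_pow_mul (j : ℕ) (x κ c : ℝ) (h : (-1) ^ j * x = κ * c) :
    SignType.sign x = SignType.sign ((-1 : ℝ) ^ j) * (SignType.sign κ * SignType.sign c) := by
  have h1 : x = (-1) ^ j * (κ * c) := by
    rw [← h, ← mul_assoc, ← pow_add, ← two_mul, pow_mul]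
    simp
  rw [h1, sign_mul, sign_mul]

theorem t_OMIT (hDEP : S_DEP) (hMONO : S_MONO) (hCOEF : S_COEF) (hIND : S_IND) : S_OMIT := by
  intro K i₀ X α lam hX hα hαX hlam hlam1 hsign hzero
  obtain ⟨hI1, hI2, hI3⟩ := hIND
  obtain ⟨hX1, hX2⟩ := hI2 K X hX
  have hIα := hI1 K 2 X hX1 hX2
  obtain ⟨hY1, hY2⟩ := hI3 K
  have hIl := hI1 K 1 (fun j _ => ((j : ℕ) : ℝ) + 1) hY1 hY2
  have hsumα := hCOEF K 2 X α hα hαX
  have hsuml := hCOEF K 1 (fun j _ => ((j : ℕ) : ℝ) + 1) lam hlam (by
    funext l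
    simpa [Finset.sum_apply] using hlam1)
  have hl0 : ∀ i, coef (K := K) lam i = 0 ↔ i = i₀ := by
    intro i
    rw [← hzero i, ← sign_eq_zero_iff, ← hsign i, sign_eq_zero_iff]
  -- the kernel vector
  set Y : Fin (K + 4) → Fin (K + 3) → ℝ := fun i => row (pts (K := K) X i) with hY
  have hskip := sum_skip (n := K + 3) i₀ (coef (K := K) α) Y hsumα ((hzero i₀).2 rfl)
  have hdet0 : Matrix.det (Matrix.of fun l : Fin (K + 3) => Y (i₀.succAbove l)) = 0 := by
    rw [← Matrix.exists_vecMul_eq_zero_iff]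
    refine ⟨fun l => coef (K := K) α (i₀.succAbove l), ?_, ?_⟩
    · intro h
      have := congrFun h 0
      simp only [Pi.zero_apply] at this
      exact (Fin.succAbove_ne i₀ 0) ((hzero _).1 this)
    · rw [Matrix.vecMul_eq_sum]
      exact hskip
  obtain ⟨L, hL0, hL⟩ := Matrix.exists_mulVec_eq_zero_iff.2 hdet0
  have hLY : ∀ l, L ⬝ᵥ Y (i₀.succAbove l) = 0 := by
    intro l
    rw [dotProduct_comm]
    exact congrFun hL l
  have hLL : L ⬝ᵥ L ≠ 0 := by
    intro h
    exact hL0 (dotProduct_self_eq_zero.1 h)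
  have htail : Fin.tail L ≠ 0 := by
    intro h
    apply hL0
    have h1 : L = Fin.cons (L 0) 0 := by
      rw [← h]
      exact (Fin.cons_self_tail L).symm
    have h2 := hLY 0
    rw [hY] at h2
    simp only [Pool.Agent.V5helper14.Sep.row] at h2
    rw [h1] at h2
    have h3 : (Fin.cons (L 0) 0 : Fin (K + 3) → ℝ) ⬝ᵥ
        (Fin.cons 1 (pts (K := K) X (i₀.succAbove 0)) : Fin (K + 3) → ℝ) = L 0 := by
      simp [dotProduct, Fin.sum_univ_succ]
    rw [h3] at h2
    rw [h1, h2]
    funext i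
    refine Fin.cases ?_ (fun i => ?_) i <;> simp
  -- the relations
  set H : (Fin (K + 3) → ℝ) → Fin (K + 3) → ℝ := fun r j =>
    hdet (k := K + 1) (pts (K := K) X) r (fun l => i₀.succAbove (j.succAbove l)) with hH
  set O : Fin (K + 3) → ℝ := fun j =>
    orient (famP K) (fun l => i₀.succAbove (j.succAbove l)) with hO
  have hrelH : ∀ r : Fin (K + 3) → ℝ, ∀ j j' : Fin (K + 3),
      (-1) ^ (j : ℕ) * H r j * coef (K := K) α (i₀.succAbove j') =
      (-1) ^ (j' : ℕ) * H r j' * coef (K := K) α (i₀.succAbove j) := by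
    intro r j j'
    have h1 := hDEP (K + 3) (Fin.snoc (α := fun _ => Fin (K + 3) → ℝ)
      (fun l => Y (i₀.succAbove l)) r)
      (Fin.snoc (α := fun _ => ℝ) (fun l => coef (K := K) α (i₀.succAbove l)) 0) (by
        rw [Fin.sum_univ_castSucc]
        simp only [Fin.snoc_castSucc, Fin.snoc_last, zero_smul, add_zero]
        exact hskip) j.castSucc j'.castSucc
    have h2 : ∀ j : Fin (K + 3), Matrix.det (Matrix.of fun l =>
        (Fin.snoc (α := fun _ => Fin (K + 3) → ℝ) (fun l => Y (i₀.succAbove l)) r :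
          Fin (K + 4) → Fin (K + 3) → ℝ) (j.castSucc.succAbove l)) = H r j := by
      intro j
      rw [hH]
      simp only [hdet]
      congr 1
      ext l m
      refine Fin.lastCases ?_ (fun l => ?_) l
      · simp only [Matrix.of_apply, Fin.snoc_last]
        rw [Fin.succAbove_castSucc_of_le _ _ (Fin.le_last _)]
        rw [Fin.succ_last, Fin.snoc_last]
      · simp only [Matrix.of_apply, Fin.snoc_castSucc]
        rw [Fin.castSucc_succAbove_castSucc, Fin.snoc_castSucc]
    rw [h2 j, h2 j'] at h1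
    simpa using h1
  have hrelO : ∀ j j' : Fin (K + 3),
      (-1) ^ (j : ℕ) * O j * coef (K := K) lam (i₀.succAbove j') =
      (-1) ^ (j' : ℕ) * O j' * coef (K := K) lam (i₀.succAbove j) := by
    intro j j'
    have h1 := hDEP (K + 2) (fun l => row (famP K (i₀.succAbove l)))
      (fun l => coef (K := K) lam (i₀.succAbove l))
      (sum_skip (n := K + 3) i₀ (coef (K := K) lam) (fun i => row (famP K i)) hsuml
        ((hl0 i₀).2 rfl)) j j'
    exact h1
  have hc : ∀ j : Fin (K + 3), coef (K := K) α (i₀.succAbove j) ≠ 0 := by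
    intro j h
    exact Fin.succAbove_ne i₀ j ((hzero _).1 h)
  have hl : ∀ j : Fin (K + 3), coef (K := K) lam (i₀.succAbove j) ≠ 0 := by
    intro j h
    exact Fin.succAbove_ne i₀ j ((hl0 _).1 h)
  have hO0 : O 0 ≠ 0 := by
    intro h
    rw [hO] at h
    simp only [orient] at h
    rw [← Matrix.exists_vecMul_eq_zero_iff] at h
    obtain ⟨v, hv0, hv⟩ := h
    apply hv0
    rw [Matrix.vecMul_eq_sum] at hv
    exact ext_zero (n := K + 2) i₀ 0 (fun i => row (famP K i)) hIl v hv
  have hH0 : H L 0 ≠ 0 := by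
    intro h
    rw [hH] at h
    simp only [hdet] at h
    rw [← Matrix.exists_vecMul_eq_zero_iff] at h
    obtain ⟨v, hv0, hv⟩ := h
    apply hv0
    rw [Matrix.vecMul_eq_sum, Fin.sum_univ_castSucc] at hv
    have hv' : ∑ l : Fin (K + 2), v l.castSucc • Y (i₀.succAbove ((0 : Fin (K + 3)).succAbove l)) +
      v (Fin.last _) • L = 0 := by
      rw [← hv]
      congr 1
      · refine Finset.sum_congr rfl fun l _ => ?_
        exact congrArg (fun z => v l.castSucc • z)
          (Fin.snoc_castSucc (α := fun _ => Fin (K + 3) → ℝ) L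
            (fun l : Fin (K + 2) => Y (i₀.succAbove ((0 : Fin (K + 3)).succAbove l))) l).symm
      · exact congrArg (fun z => v (Fin.last _) • z)
          (Fin.snoc_last (α := fun _ => Fin (K + 3) → ℝ) L
            (fun l : Fin (K + 2) => Y (i₀.succAbove ((0 : Fin (K + 3)).succAbove l)))).symm
    have h1 : L ⬝ᵥ (∑ l : Fin (K + 2), v l.castSucc • Y (i₀.succAbove ((0 : Fin (K + 3)).succAbove l)) +
      v (Fin.last _) • L) = v (Fin.last _) * (L ⬝ᵥ L) := by
      rw [dotProduct_add, dotProduct_sum, dotProduct_smul]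
      simp [hLY]
    rw [hv'] at h1
    simp only [dotProduct_zero] at h1
    have h2 : v (Fin.last _) = 0 := by
      rcases mul_eq_zero.1 h1.symm with h | h
      · exact h
      · exact absurd h hLL
    rw [h2, zero_smul, add_zero] at hv'
    have h3 := ext_zero (n := K + 2) i₀ 0 Y hIα (fun l => v l.castSucc) hv'
    funext l
    refine Fin.lastCases ?_ (fun l => ?_) l
    · exact h2
    · exact congrFun h3 l
  -- signs
  set κ : ℝ := H L 0 / coef (K := K) α (i₀.succAbove 0) with hκ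
  set κ' : ℝ := O 0 / coef (K := K) lam (i₀.succAbove 0) with hκ'
  have hκ0 : κ ≠ 0 := div_ne_zero hH0 (hc 0)
  have hκ'0 : κ' ≠ 0 := div_ne_zero hO0 (hl 0)
  have hHj : ∀ j : Fin (K + 3), (-1) ^ (j : ℕ) * H L j = κ * coef (K := K) α (i₀.succAbove j) := by
    intro j
    have h1 := hrelH L j 0
    rw [hκ, div_mul_eq_mul_div, eq_div_iff (hc 0), h1]
    simp
  have hOj : ∀ j : Fin (K + 3), (-1) ^ (j : ℕ) * O j = κ' * coef (K := K) lam (i₀.succAbove j) := by
    intro j
    have h1 := hrelO j 0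
    rw [hκ', div_mul_eq_mul_div, eq_div_iff (hl 0), h1]
    simp
  have hmem : ∀ i : Fin (K + 4), pts (K := K) X i ∈ famA K i := by
    intro i
    refine Fin.addCases (fun m => ?_) (fun j => ?_) i
    · simp [pts, famA]
    · simp only [pts, famA, Fin.append_right]
      exact Set.mem_image_of_mem _ (hX j)
  have hker : ∀ i ∈ Finset.univ.erase i₀, L ⬝ᵥ row (pts (K := K) X i) = 0 := by
    intro i hi
    obtain ⟨l, rfl⟩ := Fin.exists_succAbove_eq (Finset.ne_of_mem_erase hi)
    exact hLY l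
  have hmono : ∀ f : Fin (K + 1 + 1) → Fin (K + 4), StrictMono f →
      (∀ i, f i ∈ Finset.univ.erase i₀) → ∃ j : Fin (K + 3),
        f = fun l => i₀.succAbove (j.succAbove l) := by
    intro f hf hfi
    exact hMONO (K + 2) f hf i₀ (fun l => Finset.ne_of_mem_erase (hfi l))
  by_cases hs : SignType.sign κ = SignType.sign κ'
  · refine ⟨L, L, pts (K := K) X, htail, hLL, fun i hi => ⟨hmem i, hker i hi⟩, ?_⟩
    intro f hf hfi
    obtain ⟨j, rfl⟩ := hmono f hf hfi
    have h1 := sign_pow_mul j _ _ _ (hHj j)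
    have h2 := sign_pow_mul j _ _ _ (hOj j)
    rw [hsign, hs, ← h2] at h1
    exact h1
  · refine ⟨L, -L, pts (K := K) X, htail, ?_, fun i hi => ⟨hmem i, hker i hi⟩, ?_⟩
    · rw [dotProduct_neg]
      exact neg_ne_zero.2 hLL
    intro f hf hfi
    obtain ⟨j, rfl⟩ := hmono f hf hfi
    rw [hdet_neg]
    have h3 : (-1) ^ (j : ℕ) * (- H L j) = (-κ) * coef (K := K) α (i₀.succAbove j) := by
      rw [mul_neg, hHj j]; ring
    have h1 := sign_pow_mul j _ _ _ h3
    have h2 := sign_pow_mul j _ _ _ (hOj j)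
    have h4 : SignType.sign (-κ) = SignType.sign κ' := by
      rcases lt_or_gt_of_ne hκ0 with h | h <;> rcases lt_or_gt_of_ne hκ'0 with h' | h'
      · exact absurd (by rw [sign_neg h, sign_neg h']) hs
      · rw [sign_pos (by linarith), sign_pos h']
      · rw [sign_neg (by linarith), sign_neg h']
      · exact absurd (by rw [sign_pos h, sign_pos h']) hs
    rw [hsign, h4, ← h2] at h1
    exact h1

end Pool.Agent.V5helper66.SE
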